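import Pool.Agent.K1H35.JA.Stm

set_option autoImplicit false

namespace Pool.Agent.K1H72.JA

open Pool.Agent.K1H35.JA

section

variable {n k : ℕ} (N : ℕ) (A : Aut n k) (Λ : Fin k → ℕ) (hΛ : ∀ i, 0 < Λ i)

/-- the states -/
abbrev St (N : ℕ) (Λ : Fin k → ℕ) := (i : Fin k) → Fin (N + Λ i)

/-- the vector of a state -/
def vc {N : ℕ} {Λ : Fin k → ℕ} (c : St N Λ) : Fin k → ℕ := fun i => (c i : ℕ)

/-- the next value of a counter -/
def nx {m : ℕ} (N : ℕ) (h0 : N < m) (a : Fin m) : Fin m :=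
  if h : (a : ℕ) + 1 < m then ⟨a + 1, h⟩ else ⟨N, h0⟩

/-- the automaton -/
def dfa : DFA (Fin k) (St N Λ) where
  step c a := Function.update c a (nx N (by have := hΛ a; omega) (c a))
  start := fun i => ⟨0, by have := hΛ i; omega⟩
  accept := {c | vc c ∈ SA A}

theorem pk_snoc (w : List (Fin k)) (a : Fin k) : pk (w ++ [a]) = pk w + e a := by
  funext i
  by_cases h : a = i
  · subst h
    simp [pk, e]
  · have h' : i ≠ a := fun h'' => h h''.symm
    simp [pk, e, Pi.single_eq_of_ne h', List.count_append, List.count_singleton, h]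

theorem pk_nil : pk ([] : List (Fin k)) = 0 := by
  funext i
  simp [pk]

theorem step_inv (hper : ∀ (i : Fin k) (x : Fin k → ℕ), N ≤ x i →
    (x ∈ SA A ↔ x + Λ i • e i ∈ SA A)) (c : St N Λ) (a : Fin k) (y : Fin k → ℕ) :
    vc c + (e a + y) ∈ SA A ↔ vc ((dfa N A Λ hΛ).step c a) + y ∈ SA A := by
  have hca := (c a).isLt
  by_cases h : (c a : ℕ) + 1 < N + Λ a
  · have h1 : vc ((dfa N A Λ hΛ).step c a) = vc c + e a := by
      funext i
      by_cases hi : i = a
      · subst hi
        simp [dfa, vc, nx, h, e]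
      · simp [dfa, vc, e, Function.update_of_ne hi, Pi.single_eq_of_ne hi]
    rw [h1, add_assoc]
  · have h1 : vc c + e a = vc ((dfa N A Λ hΛ).step c a) + Λ a • e a := by
      funext i
      by_cases hi : i = a
      · subst hi
        simp [dfa, vc, nx, h, e]
        omega
      · simp [dfa, vc, e, Function.update_of_ne hi, Pi.single_eq_of_ne hi]
    have h2 : N ≤ (vc ((dfa N A Λ hΛ).step c a) + y) a := by
      simp [dfa, vc, nx, h]
    rw [hper a _ h2, ← add_assoc, h1]
    have h3 : vc ((dfa N A Λ hΛ).step c a) + Λ a • e a + y =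
        vc ((dfa N A Λ hΛ).step c a) + y + Λ a • e a := by
      rw [add_assoc, add_assoc, add_comm y]
    rw [h3]

theorem inv (hper : ∀ (i : Fin k) (x : Fin k → ℕ), N ≤ x i →
    (x ∈ SA A ↔ x + Λ i • e i ∈ SA A)) (w : List (Fin k)) : ∀ y : Fin k → ℕ,
    (pk w + y ∈ SA A ↔ vc ((dfa N A Λ hΛ).eval w) + y ∈ SA A) := by
  induction w using List.reverseRecOn with
  | nil =>
    intro y
    have h1 : vc ((dfa N A Λ hΛ).eval []) = 0 := by
      funext i
      simp [dfa, vc]
    rw [h1, pk_nil]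
  | append_singleton w a ih =>
    intro y
    rw [pk_snoc, add_assoc, ih (e a + y), DFA.eval_append_singleton]
    exact step_inv N A Λ hΛ hper _ a y

end

theorem t_UPD (hJL : S_JL) : S_UPD := by
  intro n k N A Λ hΛ hper
  have hacc : (dfa N A Λ hΛ).accepts = JL A := by
    ext w
    rw [DFA.mem_accepts, hJL n k A w]
    have h1 := inv N A Λ hΛ hper w 0
    rw [add_zero, add_zero] at h1
    exact h1.symm
  have hcard : Fintype.card (St N Λ) = ∏ i, (N + Λ i) := by
    rw [Fintype.card_pi]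
    exact Finset.prod_congr rfl fun i _ => Fintype.card_fin _
  refine Nat.sInf_le ⟨DFA.reindex (Fintype.equivFinOfCardEq hcard) (dfa N A Λ hΛ), ?_⟩
  rw [DFA.accepts_reindex, hacc]

end Pool.Agent.K1H72.JA
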